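import Pool.Agent.L7h55.TN.Stm2

/-!
# Project TN (MP_9c0351_nt), part COP
-/

set_option autoImplicit false

namespace Pool.Agent.L7h73.TN

open Pool.Agent.L7h55.TN Polynomial

theorem nextCoeff_mul' (P Q : ℤ[X]) : (P * Q).nextCoeff =
    P.leadingCoeff * Q.nextCoeff + P.nextCoeff * Q.leadingCoeff := by
  rw [← coeff_one_reverse, reverse_mul_of_domain, mul_coeff_one, coeff_one_reverse,
    coeff_one_reverse, coeff_zero_reverse, coeff_zero_reverse]

theorem L4_monic : L4.Monic := by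
  unfold L4
  exact ((monic_X_sub_C (1 : ℤ)).pow 3).mul (monic_X_add_C (1 : ℤ))

theorem L4_next : L4.nextCoeff = -2 := by
  have h1 : (X - 1 : ℤ[X]) = X - C 1 := by simp
  have h2 : (X + 1 : ℤ[X]) = X + C 1 := by simp
  unfold L4
  rw [h1, h2, Monic.nextCoeff_mul ((monic_X_sub_C (1 : ℤ)).pow 3) (monic_X_add_C (1 : ℤ)),
    Monic.nextCoeff_pow (monic_X_sub_C (1 : ℤ)), nextCoeff_X_sub_C, nextCoeff_X_add_C]
  norm_num

theorem L4_deg : L4.natDegree = 4 := by
  have h1 : (X - 1 : ℤ[X]) = X - C 1 := by simp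
  have h2 : (X + 1 : ℤ[X]) = X + C 1 := by simp
  unfold L4
  rw [h1, h2, Monic.natDegree_mul ((monic_X_sub_C (1 : ℤ)).pow 3) (monic_X_add_C (1 : ℤ)),
    Monic.natDegree_pow (monic_X_sub_C (1 : ℤ)), natDegree_X_sub_C, natDegree_X_add_C]

/-- [COP] -/
theorem s_COP (hLC : S_LC) : S_COP := by
  intro A f g hA h
  obtain ⟨h1, h2, h3⟩ := hLC A f g hA h
  have hf0 : f ≠ 0 := by
    rintro rfl
    have := h.lf
    simp at this
  have hg0 : g ≠ 0 := by
    rintro rfl
    have := h.lg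
    simp at this
  have hnd : (T A).natDegree = 2 * A + 2 := by
    rw [← h.eq, natDegree_mul L4_monic.ne_zero (mul_ne_zero hf0 hg0), natDegree_mul hf0 hg0,
      L4_deg]
    omega
  have hT : (T A).nextCoeff = -((A : ℤ) + 1) := by
    rw [nextCoeff_of_natDegree_pos (by omega), hnd]
    have e1 : 2 * A + 2 - 1 = 2 * A + 1 := by omega
    rw [e1]
    unfold T
    rw [coeff_sub, coeff_C_mul, coeff_C_mul, coeff_sub, coeff_sub, coeff_X_pow, coeff_X_pow,
      coeff_one, coeff_X, if_neg (by omega), if_neg (by omega), if_pos rfl, if_neg (by omega)]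
    ring
  have hT2 := hT
  rw [← h.eq, nextCoeff_mul', nextCoeff_mul', L4_next, L4_monic.leadingCoeff, leadingCoeff_mul,
    h1] at hT2
  refine ⟨g.leadingCoeff - g.nextCoeff, -f.nextCoeff, ?_⟩
  linear_combination h1 - hT2
  
end Pool.Agent.L7h73.TN
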