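import Pool.Agent.L7h55.TN.Stm

/-!
# Project TN (MP_9c0351_nt), parts INT and NUM2
-/

set_option autoImplicit false

namespace Pool.Agent.L7h73.TN

open Pool.Agent.L7h55.TN Polynomial

/-- [INT] -/
theorem s_INT (hCIR : S_CIR) (hCYR : S_CYR) (hKRO : S_KRO) : S_INT := by
  intro n hn z hz hi
  let P : ℤ[X] := C ((n : ℤ) - 1) * (X ^ (n + 1) - 1) - C ((n : ℤ) + 1) * (X ^ n - X)
  have hP : ∀ w : ℂ, aeval w P = S n w := by
    intro w
    simp [P, S]
  have hdvd : minpoly ℤ z ∣ P := minpoly.isIntegrallyClosed_dvd hi (by rw [hP, hz])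
  obtain ⟨k, hk, hzk⟩ := hKRO z hi (by
    intro w hw
    refine hCIR n hn w ?_
    obtain ⟨q, hq⟩ := hdvd
    rw [← hP, hq, map_mul, hw, zero_mul])
  exact hCYR n hn z hz k hk hzk

theorem step (m k : ℕ) (h : 4 * (m + 1) ≤ 3 * (k + 2)) :
    (k + 2) ^ (m + 1) ≤ 4 * (k + 1) ^ (m + 1) := by
  have hk : (0 : ℝ) < (k : ℝ) + 2 := by positivity
  have h1 : (-2 : ℝ) ≤ -(1 / ((k : ℝ) + 2)) := by
    have : 1 / ((k : ℝ) + 2) ≤ 1 := by
      rw [div_le_one hk]
      linarith [(Nat.cast_nonneg k : (0 : ℝ) ≤ k)]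
    linarith
  have h2 := one_add_mul_le_pow h1 (m + 1)
  have h3 : 1 + -(1 / ((k : ℝ) + 2)) = ((k : ℝ) + 1) / ((k : ℝ) + 2) := by
    field_simp
    ring
  rw [h3, div_pow] at h2
  have h4 : (1 : ℝ) / 4 ≤ 1 + ((m + 1 : ℕ) : ℝ) * -(1 / ((k : ℝ) + 2)) := by
    have h5 : ((m + 1 : ℕ) : ℝ) * (1 / ((k : ℝ) + 2)) ≤ 3 / 4 := by
      rw [mul_one_div, div_le_div_iff₀ hk (by norm_num)]
      have h6 : (4 : ℝ) * ((m : ℝ) + 1) ≤ 3 * ((k : ℝ) + 2) := by exact_mod_cast h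
      push_cast
      linarith
    linarith
  have h7 : (1 : ℝ) / 4 ≤ ((k : ℝ) + 1) ^ (m + 1) / ((k : ℝ) + 2) ^ (m + 1) := h4.trans h2
  rw [div_le_div_iff₀ (by norm_num) (by positivity)] at h7
  have h8 : ((k : ℝ) + 2) ^ (m + 1) ≤ 4 * ((k : ℝ) + 1) ^ (m + 1) := by linarith
  exact_mod_cast h8

theorem expo (m : ℕ) (hm : 5 ≤ m) : m + (m + 1) * (m + 1) ≤ 2 ^ (m + 1) := by
  induction m, hm using Nat.le_induction with
  | base => norm_num
  | succ m hm ih =>
    rw [pow_succ]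
    nlinarith

/-- [NUM2] -/
theorem s_NUM2 : S_NUM2 := by
  intro m k hm hk
  have hbig : 4 * (m + 1) ≤ 2 ^ m := by
    clear hk
    induction m, hm using Nat.le_induction with
    | base => norm_num
    | succ m hm ih =>
      rw [pow_succ]
      omega
  induction k, hk using Nat.le_induction with
  | base =>
    have h1 : 2 ^ m + 1 ≤ 2 ^ (m + 1) := by
      rw [pow_succ]
      have := Nat.one_le_two_pow (n := m)
      omega
    calc m * (2 ^ m + 1) ^ (m + 1) < 2 ^ m * (2 ^ (m + 1)) ^ (m + 1) := by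
          refine Nat.mul_lt_mul_of_lt_of_le Nat.lt_two_pow_self (Nat.pow_le_pow_left h1 _) ?_
          positivity
      _ = 2 ^ (m + (m + 1) * (m + 1)) := by
          rw [← pow_mul, ← pow_add]
      _ ≤ 2 ^ (2 * 2 ^ m + 1) := by
          refine Nat.pow_le_pow_right (by norm_num) ?_
          have := expo m hm
          rw [pow_succ] at this
          omega
  | succ k hk ih =>
    have h1 := step m k (by omega)
    calc m * (k + 1 + 1) ^ (m + 1) ≤ m * (4 * (k + 1) ^ (m + 1)) := Nat.mul_le_mul_left _ h1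
      _ = 4 * (m * (k + 1) ^ (m + 1)) := by ring
      _ < 4 * 2 ^ (2 * k + 1) := by omega
      _ = 2 ^ (2 * (k + 1) + 1) := by ring

end Pool.Agent.L7h73.TN
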